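import Pool.Agent.H13Z.FreeP.NoAP

open Pool.Agent.H13Z.FreeP

/-- There is a pointed metric space `M` such that for every `0 < p < 1` the Lipschitz free
`p`-space over `M` fails the approximation property. -/
theorem Pool.Agent.Results.MP_f25c59_an.AFailsAP.result :
    ∃ (M : Type) (_ : MetricSpace M) (o : M), ∀ p : ℝ, 0 < p → p < 1 →
      ∃ (F : Type) (_ : AddCommGroup F) (_ : Module ℝ F) (N : F → ℝ) (δ : M → F),
        IsFreeP ℝ p o N δ ∧ ¬ HasAP N := by
  obtain ⟨M, _, o, h⟩ := exists_not_AP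
  exact ⟨M, _, o, fun p hp hp1 => h p hp hp1.le⟩
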